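import Mathlib
import Pool.Agent.H3.Ac.Snd2
import Pool.Agent.H3.Frg4.Defs4

set_option autoImplicit false
set_option linter.unusedSectionVars false

/-!
# Soundness in a world with a few arbitrary formulas as atoms

Let `val` be a coherent three-valued valuation of the formulas in `S`. Let `G` be a list of arbitrary
formulas (the atoms) and `Vis` a set of formulas, closed under immediate subformulas except below
atoms. `star b A` is `A` with the outermost occurrences of the atoms `X` replaced by the constants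
`b X`. Assume that `star b A ∈ S` for all `A ∈ Vis` and all `b`. Then there is no derivation with all
lines in `Vis` of a formula whose `star` is never true.

* `TT j`: the formulas at depth `≤ j` inside the atoms.
* `exists_v`: a Boolean valuation `v` of all formulas and a small matching `M0` with
  `val (star v X) M0 = some (v X)` for the visible formulas `X ∈ TT ℓ` which are not atoms, and `v X` is
  given by the connective for the atoms and for the formulas which are not visible (recursion on the
  length).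
* At a matching `M' ⊇ M0` the values `val (star v X) M'` of the visible nodes of an instance of a scheme
  and the values `v X` of the other nodes respect the connectives.
-/

namespace Pool.Agent.H1.FX

open Finset Pool.Agent.H3.Frg Pool.Agent.H3.Frg2 Pool.Agent.H3.Frg3 Pool.Agent.H3.Frg4
  Pool.Agent.H3.Ac

variable {W : Type}

/-- constants -/
def cst (v0 : W) : Bool → Fm W
  | true => Fm.imp (Fm.var v0) (Fm.var v0)
  | false => Fm.neg (Fm.imp (Fm.var v0) (Fm.var v0))

open scoped Classical in
/-- replace the outermost occurrences of the formulas in `G` by constants -/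
noncomputable def star (v0 : W) (G : List (Fm W)) (b : Fm W → Bool) : Fm W → Fm W
  | Fm.var x => if Fm.var x ∈ G then cst v0 (b (Fm.var x)) else Fm.var x
  | Fm.neg A => if Fm.neg A ∈ G then cst v0 (b (Fm.neg A)) else Fm.neg (star v0 G b A)
  | Fm.imp A B => if Fm.imp A B ∈ G then cst v0 (b (Fm.imp A B)) else
      Fm.imp (star v0 G b A) (star v0 G b B)

theorem star_mem {v0 : W} {G : List (Fm W)} {b : Fm W → Bool} {A : Fm W} (h : A ∈ G) :
    star v0 G b A = cst v0 (b A) := by
  cases A <;> simp [star, h]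

theorem star_var {v0 : W} {G : List (Fm W)} {b : Fm W → Bool} {x : W} (h : Fm.var x ∉ G) :
    star v0 G b (Fm.var x) = Fm.var x := by
  simp [star, h]

theorem star_neg {v0 : W} {G : List (Fm W)} {b : Fm W → Bool} {A : Fm W} (h : Fm.neg A ∉ G) :
    star v0 G b (Fm.neg A) = Fm.neg (star v0 G b A) := by
  simp [star, h]

theorem star_imp {v0 : W} {G : List (Fm W)} {b : Fm W → Bool} {A B : Fm W}
    (h : Fm.imp A B ∉ G) :
    star v0 G b (Fm.imp A B) = Fm.imp (star v0 G b A) (star v0 G b B) := by
  simp [star, h]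

theorem len_pos (A : Fm W) : 1 ≤ A.len := by
  cases A <;> simp [Fm.len]

/-- `star` depends on the atoms of at most the same length -/
theorem star_congr {v0 : W} {G : List (Fm W)} {b b' : Fm W → Bool} (A : Fm W) :
    (∀ X ∈ G, X.len ≤ A.len → b X = b' X) → star v0 G b A = star v0 G b' A := by
  induction A with
  | var x =>
    intro h
    by_cases hG : Fm.var x ∈ G
    · rw [star_mem hG, star_mem hG, h _ hG le_rfl]
    · rw [star_var hG, star_var hG]
  | neg A ih =>
    intro h
    by_cases hG : Fm.neg A ∈ G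
    · rw [star_mem hG, star_mem hG, h _ hG le_rfl]
    · rw [star_neg hG, star_neg hG, ih fun X hX hl => h X hX (by simp only [Fm.len]; omega)]
  | imp A B ihA ihB =>
    intro h
    by_cases hG : Fm.imp A B ∈ G
    · rw [star_mem hG, star_mem hG, h _ hG le_rfl]
    · rw [star_imp hG, star_imp hG, ihA fun X hX hl => h X hX (by simp only [Fm.len]; omega),
        ihB fun X hX hl => h X hX (by simp only [Fm.len]; omega)]

/-- `star` of a formula which is not an atom depends on the shorter atoms -/
theorem star_congr' {v0 : W} {G : List (Fm W)} {b b' : Fm W → Bool} (A : Fm W) (hA : A ∉ G)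
    (h : ∀ X ∈ G, X.len < A.len → b X = b' X) : star v0 G b A = star v0 G b' A := by
  cases A with
  | var x => rw [star_var hA, star_var hA]
  | neg A =>
    rw [star_neg hA, star_neg hA,
      star_congr A fun X hX hl => h X hX (by simp only [Fm.len]; omega)]
  | imp A B =>
    rw [star_imp hA, star_imp hA,
      star_congr A fun X hX hl => h X hX (by simp only [Fm.len]; omega),
      star_congr B fun X hX hl => h X hX (by simp only [Fm.len]; omega)]

/-- immediate subformulas -/
def ch : Fm W → List (Fm W)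
  | Fm.var _ => []
  | Fm.neg A => [A]
  | Fm.imp A B => [A, B]

/-- formulas at depth at most `j` inside the atoms -/
def TT (G : List (Fm W)) : ℕ → List (Fm W)
  | 0 => G
  | j + 1 => TT G j ++ (TT G j).flatMap ch

theorem TT_len (G : List (Fm W)) (j : ℕ) : (TT G j).length ≤ 3 ^ j * G.length := by
  induction j with
  | zero => simp [TT]
  | succ j ih =>
    have h1 : ∀ l : List (Fm W), (l.flatMap ch).length ≤ 2 * l.length := by
      intro l
      induction l with
      | nil => simp
      | cons A l ih =>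
        rw [List.flatMap_cons, List.length_append, List.length_cons]
        have h2 : (ch A).length ≤ 2 := by cases A <;> simp [ch]
        omega
    have h2 := h1 (TT G j)
    simp only [TT, List.length_append]
    rw [pow_succ]
    calc (TT G j).length + ((TT G j).flatMap ch).length ≤ 3 * (TT G j).length := by omega
      _ ≤ 3 * (3 ^ j * G.length) := Nat.mul_le_mul_left _ ih
      _ = 3 ^ j * 3 * G.length := by ring

theorem TT_succ {G : List (Fm W)} {j : ℕ} {A : Fm W} (h : A ∈ TT G j) : A ∈ TT G (j + 1) :=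
  List.mem_append_left _ h

theorem TT_mono {G : List (Fm W)} {j k : ℕ} (hjk : j ≤ k) {A : Fm W} (h : A ∈ TT G j) :
    A ∈ TT G k := by
  induction hjk with
  | refl => exact h
  | step _ ih => exact TT_succ ih

theorem TT_neg {G : List (Fm W)} {j : ℕ} {A : Fm W} (h : Fm.neg A ∈ TT G j) :
    A ∈ TT G (j + 1) :=
  List.mem_append_right _ (List.mem_flatMap.2 ⟨_, h, by simp [ch]⟩)

theorem TT_imp {G : List (Fm W)} {j : ℕ} {A B : Fm W} (h : Fm.imp A B ∈ TT G j) :
    A ∈ TT G (j + 1) ∧ B ∈ TT G (j + 1) :=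
  ⟨List.mem_append_right _ (List.mem_flatMap.2 ⟨_, h, by simp [ch]⟩),
    List.mem_append_right _ (List.mem_flatMap.2 ⟨_, h, by simp [ch]⟩)⟩

/-- the truth value given by the outermost connective -/
def conn (v : Fm W → Bool) : Fm W → Bool
  | Fm.var _ => false
  | Fm.neg A => !(v A)
  | Fm.imp A B => !(v A) || v B

theorem conn_congr {v v' : Fm W → Bool} {A : Fm W} (h : ∀ X, X.len < A.len → v X = v' X) :
    conn v A = conn v' A := by
  cases A with
  | var x => rfl
  | neg A => simp only [conn]; rw [h A (by simp only [Fm.len]; omega)]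
  | imp A B =>
    simp only [conn]
    rw [h A (by simp only [Fm.len]; omega), h B (by simp only [Fm.len]; omega)]

variable {V : Type} [Fintype V] [DecidableEq V]
variable {val : Fm W → Finset (Sym2 V) → Option Bool} {S : Set (Fm W)} {w r : ℕ}

theorem count_lt_succ (l : List (Fm W)) (n : ℕ) :
    l.countP (fun X => decide (X.len < n + 1)) =
      l.countP (fun X => decide (X.len < n)) + l.countP (fun X => decide (X.len = n)) := by
  induction l with
  | nil => simp
  | cons A l ih =>
    rw [List.countP_cons, List.countP_cons, List.countP_cons, ih]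
    rcases lt_trichotomy A.len n with h | h | h
    · simp only [h, Nat.lt_succ_of_lt h, h.ne, decide_true, decide_false, if_true]
      simp
      omega
    · subst h
      simp
      omega
    · have h1 : ¬ A.len < n := by omega
      have h2 : ¬ A.len < n + 1 := by omega
      have h3 : ¬ A.len = n := by omega
      simp [h1, h2, h3]

theorem exists_v (hval : ∀ A ∈ S, Val w r (val A)) (v0 : W) (G : List (Fm W)) (Vis : Set (Fm W))
    (hst : ∀ b, ∀ A ∈ Vis, star v0 G b A ∈ S) (T : List (Fm W))
    (hroom : 2 * (w * T.length) + r ≤ Fintype.card V) (n : ℕ) :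
    ∃ (v : Fm W → Bool) (M0 : Finset (Sym2 V)), IsM M0 ∧
      M0.card ≤ w * T.countP (fun X => decide (X.len < n)) ∧
      (∀ X ∈ T, X.len < n → X ∈ Vis → X ∉ G → val (star v0 G v X) M0 = some (v X)) ∧
      (∀ X : Fm W, X.len < n → (X ∈ G ∨ X ∉ Vis) → v X = conn v X) := by
  classical
  induction n with
  | zero =>
    exact ⟨fun _ => false, ∅, isM_empty, by simp, fun X _ h => absurd h (by omega),
      fun X h => absurd h (by omega)⟩
  | succ n ih =>
    obtain ⟨v, M0, h1, h2, h3, h4⟩ := ih
    obtain ⟨l, hl⟩ : ∃ l, l = (T.filter fun X => decide (X.len = n ∧ X ∈ Vis)) := ⟨_, rfl⟩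
    have hl1 : l.length ≤ T.countP (fun X => decide (X.len = n)) := by
      rw [hl, ← List.countP_eq_length_filter]
      refine List.countP_mono_left fun X _ h => ?_
      simp only [decide_eq_true_eq] at h ⊢
      exact h.1
    have hc := count_lt_succ T n
    have hc2 : T.countP (fun X => decide (X.len < n + 1)) ≤ T.length := List.countP_le_length
    have hcard : M0.card + w * l.length ≤ w * T.countP (fun X => decide (X.len < n + 1)) := by
      rw [hc, mul_add]
      exact Nat.add_le_add h2 (Nat.mul_le_mul_left _ hl1)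
    obtain ⟨M', h5, h6, h7, h8⟩ := snd_decide (V := V) hval (l.map (star v0 G v))
      (by
        intro A hA
        obtain ⟨X, hX, rfl⟩ := List.mem_map.1 hA
        rw [hl] at hX
        have h9 := (List.mem_filter.1 hX).2
        simp only [decide_eq_true_eq] at h9
        exact hst v X h9.2) M0 h1 (by
        rw [List.length_map]
        have h9 := Nat.mul_le_mul_left w hc2
        omega)
    rw [List.length_map] at h7
    obtain ⟨v', hv'⟩ : ∃ v' : Fm W → Bool, v' = fun X => if X.len < n then v X else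
        if X ∈ G ∨ X ∉ Vis then conn v X else (val (star v0 G v X) M').getD false := ⟨_, rfl⟩
    have hlt : ∀ X : Fm W, X.len < n → v' X = v X := by
      intro X hX
      rw [hv']
      simp [hX]
    refine ⟨v', M', h5, h7.trans hcard, ?_, ?_⟩
    · intro X hXT hX hXV hXG
      have hs : star v0 G v' X = star v0 G v X :=
        star_congr' X hXG fun Y _ hY => hlt Y (by omega)
      rw [hs]
      rcases Nat.lt_succ_iff_lt_or_eq.1 hX with h | h
      · rw [hlt X h]
        exact (hval _ (hst v X hXV)).mono M0 M' h5 h6 _ (h3 X hXT h hXV hXG)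
      · have hd := h8 (star v0 G v X) (List.mem_map.2 ⟨X, by
          rw [hl]
          exact List.mem_filter.2 ⟨hXT, by simp [h, hXV]⟩, rfl⟩)
        obtain ⟨c, hc'⟩ := Option.ne_none_iff_exists'.1 hd
        rw [hc', hv']
        simp only
        rw [if_neg (by omega), if_neg (by simp [hXG, hXV]), hc']
        rfl
    · intro X hX hN
      have hcn : conn v' X = conn v X := conn_congr fun Y hY => hlt Y (by omega)
      rw [hcn]
      rcases Nat.lt_succ_iff_lt_or_eq.1 hX with h | h
      · rw [hlt X h]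
        exact h4 X h hN
      · rw [hv']
        simp only
        rw [if_neg (by omega), if_pos hN]

/-- values of the constants -/
theorem cst_val (hval : ∀ A ∈ S, Val w r (val A)) (hcoh : Coh val S) (hS : SubCl S) {v0 : W}
    (hcS : cst v0 false ∈ S) (hroom : 2 * (w + w * 2) + r ≤ Fintype.card V)
    {M : Finset (Sym2 V)} (hM : IsM M) {c d : Bool} (h : val (cst v0 c) M = some d) : d = c := by
  have h1 : Fm.imp (Fm.var v0) (Fm.var v0) ∈ S := hS.1 _ hcS
  have h2 : Fm.var v0 ∈ S := (hS.2 _ _ h1).1
  have hmem : cst v0 c ∈ S := by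
    cases c
    · exact hcS
    · exact h1
  obtain ⟨M', h3, h4, h5⟩ := snd_wit hval hmem hM h
    [Fm.var v0, Fm.imp (Fm.var v0) (Fm.var v0)]
    (by
      intro A hA
      simp only [List.mem_cons, List.not_mem_nil, or_false] at hA
      rcases hA with rfl | rfl
      · exact h2
      · exact h1) hroom
  obtain ⟨a, ha⟩ := Option.ne_none_iff_exists'.1 (h5 (Fm.var v0) (by simp))
  obtain ⟨e, he⟩ := Option.ne_none_iff_exists'.1
    (h5 (Fm.imp (Fm.var v0) (Fm.var v0)) (by simp))
  have h6 := hcoh.imp _ _ h1 M' h3 _ _ _ ha ha he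
  have h7 : e = true := by cases a <;> simpa using h6
  cases c
  · have h8 := hcoh.neg _ hcS M' h3 _ _ he h4
    rw [h8, h7]
    rfl
  · have h8 : val (Fm.imp (Fm.var v0) (Fm.var v0)) M' = some d := h4
    rw [he, h7] at h8
    exact (Option.some.inj h8).symm

section Nodes

variable (val) in
open scoped Classical in
/-- the value of a node -/
noncomputable def ev (v0 : W) (G : List (Fm W)) (Vis : Set (Fm W)) (v : Fm W → Bool)
    (M : Finset (Sym2 V)) (X : Fm W) : Bool :=
  if X ∈ Vis then (val (star v0 G v X) M).getD false else v X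

theorem ev_vis {v0 : W} {G : List (Fm W)} {Vis : Set (Fm W)} {v : Fm W → Bool}
    {M : Finset (Sym2 V)} {X : Fm W} (hX : X ∈ Vis) {b : Bool}
    (h : val (star v0 G v X) M = some b) : ev val v0 G Vis v M X = b := by
  simp [ev, hX, h]

theorem ev_not {v0 : W} {G : List (Fm W)} {Vis : Set (Fm W)} {v : Fm W → Bool}
    {M : Finset (Sym2 V)} {X : Fm W} (hX : X ∉ Vis) : ev val v0 G Vis v M X = v X := by
  simp [ev, hX]

variable (hval : ∀ A ∈ S, Val w r (val A)) (hcoh : Coh val S) (hS : SubCl S) {v0 : W}
  (hcS : cst v0 false ∈ S) (hroom : 2 * (w + w * 2) + r ≤ Fintype.card V)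
  {G : List (Fm W)} {Vis : Set (Fm W)}
  (hst : ∀ b, ∀ A ∈ Vis, star v0 G b A ∈ S)
  {v : Fm W → Bool} {M0 M : Finset (Sym2 V)} (hM : IsM M) (hM0 : M0 ⊆ M) {ℓ : ℕ}
  (hv1 : ∀ X ∈ TT G ℓ, X ∈ Vis → X ∉ G → val (star v0 G v X) M0 = some (v X))
  (hv2 : ∀ X ∈ TT G ℓ, (X ∈ G ∨ X ∉ Vis) → v X = conn v X)

include hval hcoh hS hcS hroom hst hM hM0 hv1 in
/-- the value of the formulas inside the atoms -/
theorem ev_TT {X : Fm W} (hX : X ∈ TT G ℓ) (hd : X ∈ Vis → val (star v0 G v X) M ≠ none) :
    ev val v0 G Vis v M X = v X := by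
  by_cases hV : X ∈ Vis
  · by_cases hG : X ∈ G
    · obtain ⟨b, hb⟩ := Option.ne_none_iff_exists'.1 (hd hV)
      rw [ev_vis hV hb]
      rw [star_mem hG] at hb
      exact cst_val hval hcoh hS hcS hroom hM hb
    · exact ev_vis hV ((hval _ (hst v X hV)).mono M0 M hM hM0 _ (hv1 X hX hV hG))
  · exact ev_not hV

include hval hcoh hS hcS hroom hst hM hM0 hv1 hv2 in
/-- the values of the nodes respect the connectives -/
theorem ev_bind (hV1 : ∀ A, Fm.neg A ∈ Vis → Fm.neg A ∉ G → A ∈ Vis)
    (hV2 : ∀ A B, Fm.imp A B ∈ Vis → Fm.imp A B ∉ G → A ∈ Vis ∧ B ∈ Vis)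
    (σ : ℕ → Fm W) (χ : Fm ℕ) : ∀ j : ℕ, j + χ.len ≤ ℓ + 1 →
    (χ.bind σ ∈ Vis ∨ χ.bind σ ∈ TT G j) →
    (∀ χ' ∈ χ.subs, χ'.bind σ ∈ Vis → val (star v0 G v (χ'.bind σ)) M ≠ none) →
    ev val v0 G Vis v M (χ.bind σ) = χ.eval fun i => ev val v0 G Vis v M (σ i) := by
  induction χ with
  | var i => intro _ _ _ _; rfl
  | neg A ih =>
    intro j hj hm hd
    have hj' : j + (A.len + 1) ≤ ℓ + 1 := hj
    have hA1 := len_pos A
    have hself : A ∈ A.subs := by cases A <;> simp [Fm.subs]
    have hdA : A.bind σ ∈ Vis → val (star v0 G v (A.bind σ)) M ≠ none :=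
      hd A (by simp [Fm.subs, hself])
    have hdX : Fm.neg (A.bind σ) ∈ Vis → val (star v0 G v (Fm.neg (A.bind σ))) M ≠ none :=
      hd (Fm.neg A) (by simp [Fm.subs])
    have hm' : Fm.neg (A.bind σ) ∈ Vis ∨ Fm.neg (A.bind σ) ∈ TT G j := hm
    have hmA : A.bind σ ∈ Vis ∨ A.bind σ ∈ TT G (j + 1) := by
      rcases hm' with h | h
      · by_cases hG : Fm.neg (A.bind σ) ∈ G
        · exact Or.inr (TT_mono (by omega) (TT_neg (j := 0) hG))
        · exact Or.inl (hV1 _ h hG)
      · exact Or.inr (TT_neg h)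
    have h2 := ih (j + 1) (by omega) hmA
      (fun χ' hχ => hd χ' (by simp [Fm.subs, hχ]))
    show ev val v0 G Vis v M (Fm.neg (A.bind σ)) = !(A.eval fun i => ev val v0 G Vis v M (σ i))
    rw [← h2]
    by_cases hX : Fm.neg (A.bind σ) ∈ Vis
    · obtain ⟨b, hb⟩ := Option.ne_none_iff_exists'.1 (hdX hX)
      rw [ev_vis hX hb]
      by_cases hG : Fm.neg (A.bind σ) ∈ G
      · rw [star_mem hG] at hb
        have h3 := cst_val hval hcoh hS hcS hroom hM hb
        rw [h3, hv2 _ (TT_mono (Nat.zero_le _) hG) (Or.inl hG)]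
        show (!(v (A.bind σ))) = _
        rw [ev_TT hval hcoh hS hcS hroom hst hM hM0 hv1
          (TT_mono (by omega) (TT_neg (j := 0) hG)) hdA]
      · have hAV := hV1 _ hX hG
        obtain ⟨a, ha⟩ := Option.ne_none_iff_exists'.1 (hdA hAV)
        rw [ev_vis hAV ha]
        have hmem := hst v _ hX
        rw [star_neg hG] at hb hmem
        exact hcoh.neg _ hmem M hM _ _ ha hb
    · have hT : Fm.neg (A.bind σ) ∈ TT G j := hm'.resolve_left hX
      rw [ev_not hX, hv2 _ (TT_mono (by omega) hT) (Or.inr hX)]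
      show (!(v (A.bind σ))) = _
      rw [ev_TT hval hcoh hS hcS hroom hst hM hM0 hv1
        (TT_mono (by omega) (TT_neg hT)) hdA]
  | imp A B ihA ihB =>
    intro j hj hm hd
    have hj' : j + (A.len + B.len + 1) ≤ ℓ + 1 := hj
    have hA1 := len_pos A
    have hB1 := len_pos B
    have hselfA : A ∈ A.subs := by cases A <;> simp [Fm.subs]
    have hselfB : B ∈ B.subs := by cases B <;> simp [Fm.subs]
    have hdA : A.bind σ ∈ Vis → val (star v0 G v (A.bind σ)) M ≠ none :=
      hd A (by simp [Fm.subs, hselfA])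
    have hdB : B.bind σ ∈ Vis → val (star v0 G v (B.bind σ)) M ≠ none :=
      hd B (by simp [Fm.subs, hselfB])
    have hdX : Fm.imp (A.bind σ) (B.bind σ) ∈ Vis →
        val (star v0 G v (Fm.imp (A.bind σ) (B.bind σ))) M ≠ none :=
      hd (Fm.imp A B) (by simp [Fm.subs])
    have hm' : Fm.imp (A.bind σ) (B.bind σ) ∈ Vis ∨ Fm.imp (A.bind σ) (B.bind σ) ∈ TT G j := hm
    have hmA : (A.bind σ ∈ Vis ∨ A.bind σ ∈ TT G (j + 1)) ∧
        (B.bind σ ∈ Vis ∨ B.bind σ ∈ TT G (j + 1)) := by
      rcases hm' with h | h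
      · by_cases hG : Fm.imp (A.bind σ) (B.bind σ) ∈ G
        · exact ⟨Or.inr (TT_mono (by omega) (TT_imp (j := 0) hG).1),
            Or.inr (TT_mono (by omega) (TT_imp (j := 0) hG).2)⟩
        · exact ⟨Or.inl (hV2 _ _ h hG).1, Or.inl (hV2 _ _ h hG).2⟩
      · exact ⟨Or.inr (TT_imp h).1, Or.inr (TT_imp h).2⟩
    have h2 := ihA (j + 1) (by omega) hmA.1
      (fun χ' hχ => hd χ' (by simp [Fm.subs, hχ]))
    have h5 := ihB (j + 1) (by omega) hmA.2
      (fun χ' hχ => hd χ' (by simp [Fm.subs, hχ]))
    show ev val v0 G Vis v M (Fm.imp (A.bind σ) (B.bind σ)) =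
      (!(A.eval fun i => ev val v0 G Vis v M (σ i)) || B.eval fun i => ev val v0 G Vis v M (σ i))
    rw [← h2, ← h5]
    by_cases hX : Fm.imp (A.bind σ) (B.bind σ) ∈ Vis
    · obtain ⟨b, hb⟩ := Option.ne_none_iff_exists'.1 (hdX hX)
      rw [ev_vis hX hb]
      by_cases hG : Fm.imp (A.bind σ) (B.bind σ) ∈ G
      · rw [star_mem hG] at hb
        have h3 := cst_val hval hcoh hS hcS hroom hM hb
        rw [h3, hv2 _ (TT_mono (Nat.zero_le _) hG) (Or.inl hG)]
        show (!(v (A.bind σ)) || v (B.bind σ)) = _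
        rw [ev_TT hval hcoh hS hcS hroom hst hM hM0 hv1
            (TT_mono (by omega) (TT_imp (j := 0) hG).1) hdA,
          ev_TT hval hcoh hS hcS hroom hst hM hM0 hv1
            (TT_mono (by omega) (TT_imp (j := 0) hG).2) hdB]
      · have hAV := (hV2 _ _ hX hG).1
        have hBV := (hV2 _ _ hX hG).2
        obtain ⟨a, ha⟩ := Option.ne_none_iff_exists'.1 (hdA hAV)
        obtain ⟨c, hc⟩ := Option.ne_none_iff_exists'.1 (hdB hBV)
        rw [ev_vis hAV ha, ev_vis hBV hc]
        have hmem := hst v _ hX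
        rw [star_imp hG] at hb hmem
        exact hcoh.imp _ _ hmem M hM _ _ _ ha hc hb
    · have hT : Fm.imp (A.bind σ) (B.bind σ) ∈ TT G j := hm'.resolve_left hX
      rw [ev_not hX, hv2 _ (TT_mono (by omega) hT) (Or.inr hX)]
      show (!(v (A.bind σ)) || v (B.bind σ)) = _
      rw [ev_TT hval hcoh hS hcS hroom hst hM hM0 hv1
          (TT_mono (by omega) (TT_imp hT).1) hdA,
        ev_TT hval hcoh hS hcS hroom hst hM hM0 hv1
          (TT_mono (by omega) (TT_imp hT).2) hdB]

end Nodes

/-- there is no derivation with all lines visible -/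
theorem no_der_atm (hval : ∀ A ∈ S, Val w r (val A)) (hcoh : Coh val S) (hS : SubCl S) (v0 : W)
    (hcS : cst v0 false ∈ S) (G : List (Fm W)) (Vis : Set (Fm W))
    (hV1 : ∀ A, Fm.neg A ∈ Vis → Fm.neg A ∉ G → A ∈ Vis)
    (hV2 : ∀ A B, Fm.imp A B ∈ Vis → Fm.imp A B ∉ G → A ∈ Vis ∧ B ∈ Vis)
    (hst : ∀ b, ∀ A ∈ Vis, star v0 G b A ∈ S) (ℓ : ℕ) (hℓ : 1 ≤ ℓ)
    (Sch : Set (Fm ℕ)) (htaut : ∀ ψ ∈ Sch, ∀ x : ℕ → Bool, ψ.eval x = true)
    (hlen : ∀ ψ ∈ Sch, ψ.len ≤ ℓ) (Γ : Set (Fm W))
    (hΓ : ∀ A ∈ Γ, A ∈ Vis → ∀ b M, IsM M → val (star v0 G b A) M ≠ some false)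
    {L : ℕ} (pf : Fin L → Fm W) (hpf : IsDer Sch Γ pf) (hpV : ∀ i, pf i ∈ Vis)
    (i0 : Fin L) (hfin : ∀ b M, IsM M → val (star v0 G b (pf i0)) M ≠ some true)
    (hroom : 2 * (w * (3 ^ ℓ * G.length) + w * (ℓ + 4)) + r ≤ Fintype.card V) : False := by
  classical
  have hTl : w * (TT G ℓ).length ≤ w * (3 ^ ℓ * G.length) := Nat.mul_le_mul_left w (TT_len G ℓ)
  obtain ⟨N0, hN0⟩ : ∃ N0, N0 = w * (TT G ℓ).length := ⟨_, rfl⟩
  have hroomk : ∀ k, k ≤ ℓ + 3 → 2 * (N0 + (w + w * k)) + r ≤ Fintype.card V := by
    intro k hk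
    refine le_trans ?_ hroom
    have h1 : w * k ≤ w * (ℓ + 3) := Nat.mul_le_mul_left w hk
    have h2 : w * (ℓ + 4) = w + w * (ℓ + 3) := by ring
    omega
  have hroom2 : 2 * (w + w * 2) + r ≤ Fintype.card V := by
    have := hroomk 2 (by omega)
    omega
  -- a bound for the lengths
  obtain ⟨n, hn⟩ : ∃ n, ∀ X ∈ TT G ℓ, X.len < n := by
    refine ⟨((TT G ℓ).map Fm.len).sum + 1, fun X hX => ?_⟩
    have := List.single_le_sum (l := (TT G ℓ).map Fm.len) (fun _ _ => Nat.zero_le _) X.len
      (List.mem_map.2 ⟨X, hX, rfl⟩)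
    omega
  obtain ⟨v1, M0, hM0, hM0c, hv1, hv2'⟩ := exists_v hval v0 G Vis hst (TT G ℓ)
    (by rw [← hN0]; have := hroomk 0 (by omega); omega) n
  have hM0c' : M0.card ≤ N0 := by
    rw [hN0]
    exact hM0c.trans (Nat.mul_le_mul_left w List.countP_le_length)
  have hv1' : ∀ X ∈ TT G ℓ, X ∈ Vis → X ∉ G → val (star v0 G v1 X) M0 = some (v1 X) :=
    fun X hX => hv1 X hX (hn X hX)
  have hv2 : ∀ X ∈ TT G ℓ, (X ∈ G ∨ X ∉ Vis) → v1 X = conn v1 X :=
    fun X hX => hv2' X (hn X hX)
  clear hv1 hv2'
  have hset : ∀ {M : Finset (Sym2 V)} {A : Fm W}, val A M ≠ none → val A M ≠ some false →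
      val A M = some true := by
    intro M A h1 h2
    obtain ⟨b, hb⟩ := Option.ne_none_iff_exists'.1 h1
    cases b
    · exact absurd hb h2
    · exact hb
  have hset' : ∀ {M : Finset (Sym2 V)} {A : Fm W}, val A M ≠ none → val A M ≠ some true →
      val A M = some false := by
    intro M A h1 h2
    obtain ⟨b, hb⟩ := Option.ne_none_iff_exists'.1 h1
    cases b
    · exact hb
    · exact absurd hb h2
  -- a formula inside an atom which is never false above `M0` has value `true`
  have hTtrue : ∀ X ∈ TT G ℓ, X ∈ Vis →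
      (∀ M, IsM M → M0 ⊆ M → val (star v0 G v1 X) M ≠ some false) → v1 X = true := by
    intro X hX hXV hnf
    by_cases hG : X ∈ G
    · obtain ⟨M', h1, h2, _, h3⟩ := (hval _ (hst v1 X hXV)).tot M0 hM0 (by
        have := hroomk 0 (by omega)
        omega)
      have h4 := hset h3 (hnf M' h1 h2)
      rw [star_mem hG] at h4
      exact (cst_val hval hcoh hS hcS hroom2 h1 h4).symm
    · have h4 := hv1' X hX hXV hG
      by_contra hne
      have h5 : v1 X = false := by simpa using hne
      rw [h5] at h4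
      exact hnf M0 hM0 (Subset.refl _) h4
  have key : ∀ m : ℕ, ∀ i : Fin L, (i : ℕ) = m →
      ∀ M, IsM M → M0 ⊆ M → val (star v0 G v1 (pf i)) M ≠ some false := by
    intro m
    induction m using Nat.strong_induction_on with
    | _ m ih =>
      intro i hi M hM hMM hb
      have hiV := hpV i
      have hiS := hst v1 _ hiV
      obtain ⟨t, ht1, ht2, ht3⟩ := (hval _ hiS).wit M hM false hb
      have hM1 : IsM (M0 ∪ t) := isM_sub hM (union_subset hMM ht1)
      have hM1c : (M0 ∪ t).card ≤ N0 + w := (card_union_le _ _).trans (by omega)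
      have hM1v : val (star v0 G v1 (pf i)) (M0 ∪ t) = some false :=
        (hval _ hiS).mono t _ hM1 subset_union_right false ht3
      rcases hpf i with hΓi | ⟨ψ, hψ, σ, hσ⟩ | ⟨j, l, hj, hl, hjl⟩
      · exact hΓ _ hΓi hiV v1 M hM hb
      · obtain ⟨l, hl⟩ : ∃ l, l = ((ψ.subs.map (Fm.bind σ)).filter
            (fun A => decide (A ∈ Vis))).map (star v0 G v1) := ⟨_, rfl⟩
        have hll : l.length ≤ ℓ := by
          rw [hl, List.length_map]
          refine (List.length_filter_le _ _).trans ?_
          rw [List.length_map, snd_len]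
          exact hlen ψ hψ
        obtain ⟨M', h3, h4, _, h5⟩ := snd_decide (V := V) hval l
          (by
            intro A hA
            rw [hl] at hA
            obtain ⟨X, hX, rfl⟩ := List.mem_map.1 hA
            have h9 := (List.mem_filter.1 hX).2
            simp only [decide_eq_true_eq] at h9
            exact hst v1 X h9) (M0 ∪ t) hM1 (by
            have h9 := hroomk l.length (by omega)
            omega)
        have hd : ∀ χ ∈ ψ.subs, χ.bind σ ∈ Vis → val (star v0 G v1 (χ.bind σ)) M' ≠ none := by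
          intro χ hχ hχV
          apply h5
          rw [hl]
          exact List.mem_map.2 ⟨χ.bind σ, List.mem_filter.2
            ⟨List.mem_map.2 ⟨χ, hχ, rfl⟩, by simpa using hχV⟩, rfl⟩
        have h6 := ev_bind hval hcoh hS hcS hroom2 hst h3 (subset_union_left.trans h4) hv1' hv2
          hV1 hV2 σ ψ 0 (by have := hlen ψ hψ; omega) (Or.inl (hσ ▸ hiV)) hd
        rw [htaut ψ hψ] at h6
        have h7 := (hval _ hiS).mono _ M' h3 h4 false hM1v
        rw [← hσ, ev_vis hiV h7] at h6
        exact absurd h6 (by simp)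
      · have ihj := ih j (by omega) j rfl
        have ihl := ih l (by omega) l rfl
        have hlV := hpV l
        have hjV := hpV j
        rw [hjl] at ihl hlV
        by_cases hG : Fm.imp (pf j) (pf i) ∈ G
        · have hT := TT_imp (j := 0) hG
          have hTj : pf j ∈ TT G ℓ := TT_mono (by omega) hT.1
          have hTi : pf i ∈ TT G ℓ := TT_mono (by omega) hT.2
          have h1 := hTtrue _ (TT_mono (Nat.zero_le ℓ) (show _ ∈ TT G 0 from hG)) hlV ihl
          rw [hv2 _ (TT_mono (Nat.zero_le ℓ) (show _ ∈ TT G 0 from hG)) (Or.inl hG)] at h1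
          have h2 : (!(v1 (pf j)) || v1 (pf i)) = true := h1
          rw [hTtrue _ hTj hjV ihj] at h2
          have h3 : v1 (pf i) = true := by simpa using h2
          by_cases hGi : pf i ∈ G
          · rw [star_mem hGi] at hb
            have h4 := cst_val hval hcoh hS hcS hroom2 hM hb
            rw [h3] at h4
            exact absurd h4 (by simp)
          · have h4 := (hval _ hiS).mono M0 M hM hMM _ (hv1' _ hTi hiV hGi)
            rw [hb, h3] at h4
            exact absurd h4 (by simp)
        · have hlS := hst v1 _ hlV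
          have hjS := hst v1 _ hjV
          rw [star_imp hG] at ihl hlS
          obtain ⟨M', h3, h4, _, h5⟩ := snd_decide (V := V) hval
            [star v0 G v1 (pf j), Fm.imp (star v0 G v1 (pf j)) (star v0 G v1 (pf i))]
            (by
              intro A hA
              simp only [List.mem_cons, List.not_mem_nil, or_false] at hA
              rcases hA with rfl | rfl
              · exact hjS
              · exact hlS) (M0 ∪ t) hM1 (by
              have h9 := hroomk 2 (by omega)
              have h10 : ([star v0 G v1 (pf j),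
                Fm.imp (star v0 G v1 (pf j)) (star v0 G v1 (pf i))] : List (Fm W)).length = 2 := rfl
              rw [h10]
              omega)
          have hMM' := subset_union_left.trans h4
          have h6 := hset (h5 _ (by simp)) (ihj M' h3 hMM')
          have h7 := hset (h5 (Fm.imp (star v0 G v1 (pf j)) (star v0 G v1 (pf i))) (by simp))
            (ihl M' h3 hMM')
          have h8 := hcoh.imp _ _ hlS M' h3 _ _ _ h6 ((hval _ hiS).mono _ M' h3 h4 false hM1v) h7
          exact absurd h8 (by simp)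
  obtain ⟨M', h1, h2, _, h3⟩ := (hval _ (hst v1 _ (hpV i0))).tot M0 hM0 (by
    have := hroomk 0 (by omega)
    omega)
  exact key i0 i0 rfl M' h1 h2 (hset' h3 (hfin v1 M' h1))

end Pool.Agent.H1.FX
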