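import Mathlib
import Pool.Agent.H1.FX.Atm
import Pool.Agent.H1.FX.Fin2

set_option autoImplicit false
set_option linter.unusedSectionVars false

/-!
# Proofs of bounded depth over short formulas and a few arbitrary formulas

The final theorem `finalX`.
-/

namespace Pool.Agent.H1.FX

open Finset Filter Topology Pool.Agent.H3.Frg Pool.Agent.H3.Frg2 Pool.Agent.H3.Frg3
  Pool.Agent.H3.Frg4 Pool.Agent.H3.Ac Pool.Agent.H3.Wd

section Formulas

variable {W : Type}

theorem bigAnd_congr {V : Type} : ∀ (d : ℕ) (C C' : ℕ → Fm V), (∀ i, i < 2 ^ d → C i = C' i) →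
    bigAnd d C = bigAnd d C' := by
  intro d
  induction d with
  | zero => intro C C' h; exact h 0 (by norm_num)
  | succ d ih =>
    intro C C' h
    have e : 2 ^ (d + 1) = 2 ^ d + 2 ^ d := by rw [pow_succ]; ring
    show Fm.neg (Fm.imp (bigAnd d C) (Fm.neg (bigAnd d fun i => C (2 ^ d + i)))) = _
    rw [ih C C' fun i hi => h i (by omega), ih (fun i => C (2 ^ d + i)) (fun i => C' (2 ^ d + i))
      fun i hi => h _ (by omega)]
    rfl

theorem bigAnd_enc : ∀ (d : ℕ) (C : ℕ → Fm ℕ) (i : ℕ), i < 2 ^ d →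
    (C i).enc.length ≤ (bigAnd d C).enc.length := by
  intro d
  induction d with
  | zero =>
    intro C i hi
    have : i = 0 := by simpa using hi
    rw [this]
    exact le_rfl
  | succ d ih =>
    intro C i hi
    have e : 2 ^ (d + 1) = 2 ^ d + 2 ^ d := by rw [pow_succ]; ring
    have h1 : (bigAnd (d + 1) C).enc.length = 2 + (2 + ((bigAnd d C).enc.length + (2 +
        (bigAnd d fun i => C (2 ^ d + i)).enc.length))) := by
      show (Fm.neg (Fm.imp (bigAnd d C) (Fm.neg (bigAnd d fun i => C (2 ^ d + i))))).enc.length = _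
      simp only [Fm.enc, List.length_cons, List.length_append]
      ring
    rw [h1]
    rcases Nat.lt_or_ge i (2 ^ d) with h | h
    · have := ih C i h
      omega
    · have := ih (fun i => C (2 ^ d + i)) (i - 2 ^ d) (by omega)
      rw [show 2 ^ d + (i - 2 ^ d) = i by omega] at this
      omega

/-- in a world a conjunction of axioms is never false -/
theorem never_bigAnd {V : Type} [Fintype V] [DecidableEq V] {w : ℕ} {S Ax : Set (Fm W)}
    {val : Fm W → Finset (Sym2 V) → Option Bool} (hW : World S Ax w V val) (hS : SubCl S)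
    (hroom : 2 * (w + w * 4) + 8 * w ≤ Fintype.card V) : ∀ (d : ℕ) (C : ℕ → Fm W),
    (∀ i, C i ∈ Ax) → bigAnd d C ∈ S → ∀ M, IsM M → val (bigAnd d C) M ≠ some false := by
  intro d
  induction d with
  | zero => intro C hC h M hM; exact hW.ax _ h (hC 0) M hM
  | succ d ih =>
    intro C hC h M hM hb
    have h1 : Fm.neg (Fm.imp (bigAnd d C) (Fm.neg (bigAnd d fun i => C (2 ^ d + i)))) ∈ S := h
    have h2 := hS.1 _ h1
    have h3 := hS.2 _ _ h2
    have h4 := hS.1 _ h3.2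
    obtain ⟨M', h5, h6, h7⟩ := snd_wit hW.vals h1 hM hb
      [bigAnd d C, bigAnd d fun i => C (2 ^ d + i), Fm.neg (bigAnd d fun i => C (2 ^ d + i)),
        Fm.imp (bigAnd d C) (Fm.neg (bigAnd d fun i => C (2 ^ d + i)))]
      (by
        intro A hA
        simp only [List.mem_cons, List.not_mem_nil, or_false] at hA
        rcases hA with rfl | rfl | rfl | rfl
        · exact h3.1
        · exact h4
        · exact h3.2
        · exact h2) hroom
    have hset : ∀ A : Fm W, val A M' ≠ none → val A M' ≠ some false → val A M' = some true := by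
      intro A h1 h2
      obtain ⟨b, hb⟩ := Option.ne_none_iff_exists'.1 h1
      cases b
      · exact absurd hb h2
      · exact hb
    have e1 := hset _ (h7 (bigAnd d C) (by simp)) (ih C hC h3.1 M' h5)
    have e2 := hset _ (h7 (bigAnd d fun i => C (2 ^ d + i)) (by simp))
      (ih _ (fun i => hC _) h4 M' h5)
    obtain ⟨x, hx⟩ := Option.ne_none_iff_exists'.1
      (h7 (Fm.neg (bigAnd d fun i => C (2 ^ d + i))) (by simp))
    obtain ⟨y, hy⟩ := Option.ne_none_iff_exists'.1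
      (h7 (Fm.imp (bigAnd d C) (Fm.neg (bigAnd d fun i => C (2 ^ d + i)))) (by simp))
    have e3 := hW.coh.neg _ h3.2 M' h5 _ _ e2 hx
    have e4 := hW.coh.imp _ _ h2 M' h5 _ _ _ e1 hx hy
    have e5 := hW.coh.neg _ h1 M' h5 _ _ hy h6
    rw [e4, e3] at e5
    exact absurd e5 (by simp)

/-- short formulas are not changed -/
theorem star_short {v0 : W} {G : List (Fm W)} {P : Fm W → Prop}
    (hP1 : ∀ A, P (Fm.neg A) → P A) (hP2 : ∀ A B, P (Fm.imp A B) → P A ∧ P B)
    (hG : ∀ A ∈ G, ¬ P A) (b : Fm W → Bool) (A : Fm W) : P A → star v0 G b A = A := by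
  induction A with
  | var x => intro h; exact star_var fun hx => hG _ hx h
  | neg A ih => intro h; rw [star_neg fun hx => hG _ hx h, ih (hP1 _ h)]
  | imp A B ihA ihB =>
    intro h
    rw [star_imp fun hx => hG _ hx h, ihA (hP2 _ _ h).1, ihB (hP2 _ _ h).2]

theorem star_LDep {v0 : W} {G : List (Fm W)} {P : Fm W → Prop}
    (hP1 : ∀ A, P (Fm.neg A) → P A) (hP2 : ∀ A B, P (Fm.imp A B) → P A ∧ P B)
    (hG : ∀ A ∈ G, ¬ P A) (hc : ∀ c, P (cst v0 c)) (b : Fm W → Bool) {D : ℕ} {A : Fm W}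
    (h : LDep (fun A => P A ∨ A ∈ G) D A) : LDep P D (star v0 G b A) := by
  induction h with
  | var d v =>
    by_cases hv : Fm.var v ∈ G
    · rw [star_mem hv]
      exact LDep.base _ _ (hc _)
    · rw [star_var hv]
      exact LDep.var _ _
  | base d A hA =>
    by_cases hv : A ∈ G
    · rw [star_mem hv]
      exact LDep.base _ _ (hc _)
    · have hPA := hA.resolve_right hv
      rw [star_short hP1 hP2 hG b A hPA]
      exact LDep.base _ _ hPA
  | neg d A _ ih =>
    by_cases hv : Fm.neg A ∈ G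
    · rw [star_mem hv]
      exact LDep.base _ _ (hc _)
    · rw [star_neg hv]
      exact LDep.neg _ _ ih
  | imp d A B _ _ ihA ihB =>
    by_cases hv : Fm.imp A B ∈ G
    · rw [star_mem hv]
      exact LDep.base _ _ (hc _)
    · rw [star_imp hv]
      exact LDep.imp _ _ _ ihA ihB

theorem LDep_mono {P Q : Fm W → Prop} (hPQ : ∀ A, P A → Q A) {D : ℕ} {A : Fm W}
    (h : LDep P D A) : LDep Q D A := by
  induction h with
  | var d v => exact LDep.var _ _
  | base d A hA => exact LDep.base _ _ (hPQ _ hA)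
  | neg d A _ ih => exact LDep.neg _ _ ih
  | imp d A B _ _ ihA ihB => exact LDep.imp _ _ _ ihA ihB

theorem LDep_succ {P : Fm W → Prop} {D : ℕ} {A : Fm W} (h : LDep P D A) : LDep P (D + 1) A := by
  induction h with
  | var d v => exact LDep.var _ _
  | base d A hA => exact LDep.base _ _ hA
  | neg d A _ ih => exact LDep.neg _ _ ih
  | imp d A B _ _ ihA ihB => exact LDep.imp _ _ _ ihA ihB

end Formulas

/-- the theorem for one `n` -/
theorem fixedX {d D w ℓ : ℕ} {C : ℕ → Fm ℕ} {B e0 z : ℝ} (hw : 2 * 3 ^ ℓ + 2 * ℓ + 16 ≤ w)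
    (hz : 4 ≤ z) (hze : z ^ 2 ≤ e0) (hzw : z ≤ w)
    (hB : ((Fm.neg (bigAnd d C)).enc.length : ℝ) ≤ B) (hB9 : 9 ≤ B) (hℓ : 1 ≤ ℓ)
    (hW : ∀ S : List (Fm ℕ), SubCl {A | A ∈ S} → (S.length : ℝ) ≤ (2 : ℝ) ^ e0 →
        (∀ A ∈ S, LDep (fun A => (A.enc.length : ℝ) ≤ B) D A) →
        HasWorld {A | A ∈ S} (Set.range C) w (w ^ 3))
    (Sch : Set (Fm ℕ)) (htaut : ∀ ψ ∈ Sch, ∀ x, ψ.eval x = true) (hlen : ∀ ψ ∈ Sch, ψ.len ≤ ℓ)
    {L : ℕ} (pf : Fin L → Fm ℕ)
    (hpf : IsDer Sch (Set.range fun i => C (i % 2 ^ d)) pf)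
    (i0 : Fin L) (hi0 : pf i0 = Fm.neg (bigAnd d C)) (G : Finset (Fm ℕ)) (hG : (G.card : ℝ) ≤ z)
    (hdep : ∀ i, LDep (fun A => (A.enc.length : ℝ) ≤ B ∨ A ∈ G) D (pf i)) :
    (2 : ℝ) ^ z ≤ ∑ i, ((pf i).enc.length : ℝ) := by
  classical
  by_contra hcon
  push Not at hcon
  obtain ⟨P, hP⟩ : ∃ P : Fm ℕ → Prop, P = fun A => (A.enc.length : ℝ) ≤ B := ⟨_, rfl⟩
  have hP1 : ∀ A, P (Fm.neg A) → P A := by
    intro A h
    rw [hP] at h ⊢
    simp only at h ⊢
    refine le_trans ?_ h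
    have : A.enc.length ≤ (Fm.neg A).enc.length := by
      simp only [Fm.enc, List.length_cons]; omega
    exact_mod_cast this
  have hP2 : ∀ A B, P (Fm.imp A B) → P A ∧ P B := by
    intro A B' h
    rw [hP] at h ⊢
    simp only at h ⊢
    constructor
    · refine le_trans ?_ h
      have : A.enc.length ≤ (Fm.imp A B').enc.length := by
        simp only [Fm.enc, List.length_cons, List.length_append]; omega
      exact_mod_cast this
    · refine le_trans ?_ h
      have : B'.enc.length ≤ (Fm.imp A B').enc.length := by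
        simp only [Fm.enc, List.length_cons, List.length_append]; omega
      exact_mod_cast this
  have hc0 : ∀ c, P (cst 0 c) := by
    intro c
    rw [hP]
    simp only
    have : (cst 0 c : Fm ℕ).enc.length ≤ 9 := by
      cases c <;> simp [cst, Fm.enc]
    refine le_trans ?_ hB9
    exact_mod_cast this
  obtain ⟨Gl, hGl⟩ : ∃ Gl : List (Fm ℕ), Gl = G.toList.filter fun A => decide (¬ P A) := ⟨_, rfl⟩
  have hGP : ∀ A ∈ Gl, ¬ P A := by
    intro A hA
    rw [hGl, List.mem_filter, decide_eq_true_eq] at hA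
    exact hA.2
  have hGlen : Gl.length ≤ G.card := by
    rw [hGl, ← Finset.length_toList]
    exact List.length_filter_le _ _
  have hdep' : ∀ i, LDep (fun A => P A ∨ A ∈ Gl) D (pf i) := by
    intro i
    refine LDep_mono (fun A hA => ?_) (hdep i)
    by_cases h : P A
    · exact Or.inl h
    · refine Or.inr ?_
      rw [hGl, List.mem_filter, decide_eq_true_eq, Finset.mem_toList]
      refine ⟨hA.resolve_left ?_, h⟩
      rw [hP] at h
      exact h
  obtain ⟨Vl, hVl⟩ : ∃ Vl : List (Fm ℕ), Vl = (((List.finRange L).flatMap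
      fun i => (pf i).subs).filter fun A => decide (LDep (fun A => P A ∨ A ∈ Gl) D A)) := ⟨_, rfl⟩
  have hVm : ∀ A, A ∈ Vl ↔ (∃ i, A ∈ (pf i).subs) ∧ LDep (fun A => P A ∨ A ∈ Gl) D A := by
    intro A
    rw [hVl, List.mem_filter, List.mem_flatMap, decide_eq_true_eq]
    simp
  have hV1 : ∀ A, Fm.neg A ∈ Vl → Fm.neg A ∉ Gl → A ∈ Vl := by
    intro A h hn
    rw [hVm] at h ⊢
    obtain ⟨⟨i, hi⟩, hd⟩ := h
    refine ⟨⟨i, (subs_cl (pf i)).1 A hi⟩, ?_⟩
    cases hd with
    | base _ _ hA => exact LDep.base _ _ (Or.inl (hP1 _ (hA.resolve_right hn)))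
    | neg _ _ hA => exact LDep_succ hA
  have hV2 : ∀ A B, Fm.imp A B ∈ Vl → Fm.imp A B ∉ Gl → A ∈ Vl ∧ B ∈ Vl := by
    intro A B' h hn
    rw [hVm] at h
    rw [hVm, hVm]
    obtain ⟨⟨i, hi⟩, hd⟩ := h
    have h1 := (subs_cl (pf i)).2 A B' hi
    refine ⟨⟨⟨i, h1.1⟩, ?_⟩, ⟨⟨i, h1.2⟩, ?_⟩⟩
    · cases hd with
      | base _ _ hA => exact LDep.base _ _ (Or.inl (hP2 _ _ (hA.resolve_right hn)).1)
      | imp _ _ _ hA hB => exact LDep_succ hA
    · cases hd with
      | base _ _ hA => exact LDep.base _ _ (Or.inl (hP2 _ _ (hA.resolve_right hn)).2)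
      | imp _ _ _ hA hB => exact hB
  have hpV : ∀ i, pf i ∈ Vl := fun i => (hVm _).2 ⟨⟨i, self_subs _⟩, hdep' i⟩
  -- the set of formulas of the world
  obtain ⟨S, hS⟩ : ∃ S : List (Fm ℕ), S = (Gl.sublists.flatMap fun B' =>
      Vl.map (star 0 Gl fun X => decide (X ∈ B'))) ++
      [Fm.var 0, cst 0 true, cst 0 false] := ⟨_, rfl⟩
  have hSm : ∀ A, A ∈ S ↔ (∃ B' ∈ Gl.sublists, ∃ X ∈ Vl, star 0 Gl (fun X => decide (X ∈ B')) X = A) ∨
      A = Fm.var 0 ∨ A = cst 0 true ∨ A = cst 0 false := by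
    intro A
    rw [hS, List.mem_append, List.mem_flatMap]
    simp only [List.mem_map, List.mem_cons, List.not_mem_nil, or_false]
  have hst : ∀ b : Fm ℕ → Bool, ∀ A ∈ Vl, star 0 Gl b A ∈ S := by
    intro b A hA
    rw [hSm]
    refine Or.inl ⟨Gl.filter b, List.mem_sublists.2 List.filter_sublist, A, hA, ?_⟩
    refine star_congr A fun X hX _ => ?_
    cases hb : b X
    · simp [List.mem_filter, hb]
    · simp [List.mem_filter, hb, hX]
  have hcf : cst 0 false ∈ S := (hSm _).2 (Or.inr (Or.inr (Or.inr rfl)))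
  have hct : cst 0 true ∈ S := (hSm _).2 (Or.inr (Or.inr (Or.inl rfl)))
  have hcv : Fm.var 0 ∈ S := (hSm _).2 (Or.inr (Or.inl rfl))
  have hSub : SubCl {A | A ∈ S} := by
    refine ⟨fun A hA => ?_, fun A B' hA => ?_⟩
    · rcases (hSm _).1 hA with ⟨B', hB', X, hX, h1⟩ | h1 | h1 | h1
      · by_cases hXG : X ∈ Gl
        · rw [star_mem hXG] at h1
          cases hb : decide (X ∈ B')
          · rw [hb] at h1
            have h2 : Fm.neg (Fm.imp (Fm.var 0) (Fm.var 0)) = Fm.neg A := h1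
            rw [← Fm.neg.inj h2]
            exact hct
          · rw [hb] at h1
            exact absurd h1 (by simp [cst])
        · cases X with
          | var x => rw [star_var hXG] at h1; exact absurd h1 (by simp)
          | neg Y =>
            rw [star_neg hXG] at h1
            rw [← Fm.neg.inj h1]
            exact hst _ _ (hV1 _ hX hXG)
          | imp Y Z => rw [star_imp hXG] at h1; exact absurd h1 (by simp)
      · exact absurd h1 (by simp)
      · exact absurd h1 (by simp [cst])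
      · have h2 : Fm.neg A = Fm.neg (Fm.imp (Fm.var 0) (Fm.var 0)) := h1
        rw [Fm.neg.inj h2]
        exact hct
    · rcases (hSm _).1 hA with ⟨B'', hB'', X, hX, h1⟩ | h1 | h1 | h1
      · by_cases hXG : X ∈ Gl
        · rw [star_mem hXG] at h1
          cases hb : decide (X ∈ B'')
          · rw [hb] at h1
            exact absurd h1 (by simp [cst])
          · rw [hb] at h1
            have h2 : Fm.imp (Fm.var 0) (Fm.var 0) = Fm.imp A B' := h1
            have h3 := Fm.imp.inj h2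
            rw [← h3.1, ← h3.2]
            exact ⟨hcv, hcv⟩
        · cases X with
          | var x => rw [star_var hXG] at h1; exact absurd h1 (by simp)
          | neg Y => rw [star_neg hXG] at h1; exact absurd h1 (by simp)
          | imp Y Z =>
            rw [star_imp hXG] at h1
            have h3 := Fm.imp.inj h1
            rw [← h3.1, ← h3.2]
            exact ⟨hst _ _ (hV2 _ _ hX hXG).1, hst _ _ (hV2 _ _ hX hXG).2⟩
      · exact absurd h1 (by simp)
      · have h2 : Fm.imp A B' = Fm.imp (Fm.var 0) (Fm.var 0) := h1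
        have h3 := Fm.imp.inj h2
        rw [h3.1, h3.2]
        exact ⟨hcv, hcv⟩
      · exact absurd h1 (by simp [cst])
  have hSd : ∀ A ∈ S, LDep (fun A => (A.enc.length : ℝ) ≤ B) D A := by
    intro A hA
    rcases (hSm _).1 hA with ⟨B', hB', X, hX, h1⟩ | h1 | h1 | h1
    · rw [← h1]
      have := star_LDep hP1 hP2 hGP hc0 (fun X => decide (X ∈ B')) ((hVm X).1 hX).2
      rw [hP] at this
      exact this
    · rw [h1]; exact LDep.var _ _
    · rw [h1]
      have := hc0 true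
      rw [hP] at this
      exact LDep.base _ _ this
    · rw [h1]
      have := hc0 false
      rw [hP] at this
      exact LDep.base _ _ this
  have hVlen : (Vl.length : ℝ) ≤ (2 : ℝ) ^ z := by
    have h1 : Vl.length ≤ ∑ i, (pf i).enc.length := by
      rw [hVl]
      refine (List.length_filter_le _ _).trans ?_
      rw [List.length_flatMap, ← List.ofFn_eq_map, List.sum_ofFn]
      refine Finset.sum_le_sum fun i _ => ?_
      rw [length_subs]
      exact len_le_enc _
    refine le_trans ?_ hcon.le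
    exact_mod_cast h1
  have hGz : (Gl.length : ℝ) ≤ z := le_trans (by exact_mod_cast hGlen) hG
  have hSlen : (S.length : ℝ) ≤ (2 : ℝ) ^ e0 := by
    have h1 : S.length ≤ 2 ^ Gl.length * Vl.length + 3 := by
      rw [hS, List.length_append]
      have h2 := length_flatMap_le Gl.sublists
        (fun B' => Vl.map (star 0 Gl fun X => decide (X ∈ B'))) Vl.length
        (fun B' _ => by rw [List.length_map])
      rw [List.length_sublists] at h2
      have h3 : ([Fm.var 0, cst 0 true, cst 0 false] : List (Fm ℕ)).length = 3 := rfl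
      omega
    have h2 : (S.length : ℝ) ≤ 2 ^ Gl.length * Vl.length + 3 := by exact_mod_cast h1
    have h3 : (2 : ℝ) ^ Gl.length ≤ (2 : ℝ) ^ z := by
      rw [← Real.rpow_natCast]
      exact Real.rpow_le_rpow_of_exponent_le (by norm_num) hGz
    have h4 : (2 : ℝ) ^ z * (2 : ℝ) ^ z = (2 : ℝ) ^ (2 * z) := by
      rw [← Real.rpow_add (by norm_num)]
      congr 1; ring
    have h5 : (3 : ℝ) ≤ (2 : ℝ) ^ (2 * z) := by
      have h6 : (2 : ℝ) ^ (2 : ℝ) ≤ (2 : ℝ) ^ (2 * z) :=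
        Real.rpow_le_rpow_of_exponent_le (by norm_num) (by linarith)
      have h7 : (2 : ℝ) ^ (2 : ℝ) = 4 := by norm_num
      linarith
    have h6 : (2 : ℝ) ^ (2 * z) * 2 = (2 : ℝ) ^ (2 * z + 1) := by
      rw [Real.rpow_add (by norm_num), Real.rpow_one]
    have h7 : (2 : ℝ) ^ (2 * z + 1) ≤ (2 : ℝ) ^ e0 :=
      Real.rpow_le_rpow_of_exponent_le (by norm_num) (by nlinarith)
    calc (S.length : ℝ) ≤ 2 ^ Gl.length * Vl.length + 3 := h2
      _ ≤ (2 : ℝ) ^ z * (2 : ℝ) ^ z + 3 := by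
          have := mul_le_mul h3 hVlen (Nat.cast_nonneg _) (Real.rpow_nonneg (by norm_num) _)
          linarith
      _ ≤ (2 : ℝ) ^ (2 * z) * 2 := by rw [h4]; linarith
      _ ≤ _ := by rw [h6]; exact h7
  obtain ⟨V, iV, iDV, val, hWd, hcard⟩ := hW S hSub hSlen hSd
  -- room
  have hGw : Gl.length ≤ w := by
    have : (Gl.length : ℝ) ≤ w := hGz.trans hzw
    exact_mod_cast this
  have hw3 : (2 * 3 ^ ℓ + 2 * ℓ + 16) * w ^ 2 ≤ w ^ 3 := by
    calc (2 * 3 ^ ℓ + 2 * ℓ + 16) * w ^ 2 ≤ w * w ^ 2 := Nat.mul_le_mul_right _ hw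
      _ = w ^ 3 := by ring
  have hww : w ≤ w ^ 2 := Nat.le_self_pow (by norm_num) _
  have hr1 : w * (3 ^ ℓ * Gl.length) ≤ 3 ^ ℓ * w ^ 2 := by
    calc w * (3 ^ ℓ * Gl.length) ≤ w * (3 ^ ℓ * w) :=
          Nat.mul_le_mul_left _ (Nat.mul_le_mul_left _ hGw)
      _ = 3 ^ ℓ * w ^ 2 := by ring
  have hr2 : w * (ℓ + 4) ≤ w ^ 2 * (ℓ + 4) := Nat.mul_le_mul_right _ hww
  have hroom : 2 * (w * (3 ^ ℓ * Gl.length) + w * (ℓ + 4)) + 8 * w ≤ Fintype.card V := by
    refine le_trans ?_ hcard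
    refine le_trans ?_ hw3
    have : (2 * 3 ^ ℓ + 2 * ℓ + 16) * w ^ 2 =
        2 * (3 ^ ℓ * w ^ 2 + w ^ 2 * (ℓ + 4)) + 8 * w ^ 2 := by ring
    omega
  have hroom4 : 2 * (w + w * 4) + 8 * w ≤ Fintype.card V := by
    refine le_trans ?_ hcard
    refine le_trans ?_ hw3
    have h1 : 18 * w ^ 2 ≤ (2 * 3 ^ ℓ + 2 * ℓ + 16) * w ^ 2 := by
      refine Nat.mul_le_mul_right _ ?_
      have := Nat.one_le_pow ℓ 3 (by norm_num)
      omega
    omega
  have hCC : bigAnd d C = bigAnd d fun i => C (i % 2 ^ d) :=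
    bigAnd_congr d _ _ fun i hi => by rw [Nat.mod_eq_of_lt hi]
  have hτP : P (Fm.neg (bigAnd d C)) := by rw [hP]; exact hB
  have hCP : ∀ i, P (C (i % 2 ^ d)) := by
    intro i
    rw [hP]
    simp only
    refine le_trans ?_ hB
    have h1 := bigAnd_enc d C (i % 2 ^ d) (Nat.mod_lt _ (by positivity))
    have h2 : (bigAnd d C).enc.length ≤ (Fm.neg (bigAnd d C)).enc.length := by
      simp only [Fm.enc, List.length_cons]; omega
    exact_mod_cast h1.trans h2
  refine no_der_atm hWd.vals hWd.coh hSub 0 hcf Gl {A | A ∈ Vl} hV1 hV2 hst ℓ hℓ Sch htaut hlen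
    (Set.range fun i => C (i % 2 ^ d)) ?_ pf hpf hpV i0 ?_ hroom
  · rintro A ⟨i, rfl⟩ hAV b M hM
    have h1 := star_short (v0 := 0) hP1 hP2 hGP b _ (hCP i)
    have h2 := hst b _ hAV
    rw [h1] at h2 ⊢
    exact hWd.ax _ h2 ⟨_, rfl⟩ M hM
  · intro b M hM hb
    have h2 := hst b _ (hpV i0)
    rw [hi0, star_short (v0 := 0) hP1 hP2 hGP b _ hτP] at hb h2
    have h3 := hSub.1 _ h2
    obtain ⟨M', h5, h6, h7⟩ := snd_wit hWd.vals h2 hM hb [bigAnd d C]
      (by
        intro A hA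
        rw [List.mem_singleton] at hA
        rw [hA]
        exact h3) (by
        refine le_trans ?_ hroom4
        have : ([bigAnd d C] : List (Fm ℕ)).length = 1 := rfl
        rw [this]
        omega)
    obtain ⟨x, hx⟩ := Option.ne_none_iff_exists'.1 (h7 (bigAnd d C) (by simp))
    have h8 := hWd.coh.neg _ h2 M' h5 _ _ hx h6
    have h9 : x = false := by
      cases x
      · rfl
      · exact absurd h8 (by decide)
    rw [h9] at hx
    exact never_bigAnd hWd hSub hroom4 d C (fun i => ⟨i, rfl⟩) h3 M' h5 hx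

/-- the final theorem -/
theorem finalX (θ : ℝ) (hθ : θ < 2) (D : ℕ) :
    ∃ (k : ℕ) (ε : ℝ), 0 < ε ∧ ∃ (d : ℕ → ℕ) (C : ℕ → ℕ → Fm ℕ) (τ : ℕ → Fm ℕ),
      (∀ n, τ n = Fm.neg (bigAnd (d n) (C n))) ∧
      (∀ n i, IsClause k (C n i)) ∧
      (∀ n x, (τ n).eval x = true) ∧
      Tendsto (fun n => (τ n).enc.length) atTop atTop ∧
      ∀ Sch : Set (Fm ℕ), Sch.Finite → (∀ ψ ∈ Sch, ∀ x, ψ.eval x = true) →
        ∀ᶠ n in atTop, ∀ (L : ℕ) (pf : Fin L → Fm ℕ), IsDer Sch (Set.range (C n)) pf →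
          (∃ i, pf i = τ n) →
          ((τ n).enc.length : ℝ) ^ θ ≤ ∑ i, ((pf i).enc.length : ℝ) ∧
          ∀ G : Finset (Fm ℕ), (G.card : ℝ) ≤ ((τ n).enc.length : ℝ) ^ ε →
            (∀ i, LDep (fun A => (A.enc.length : ℝ) ≤ ((τ n).enc.length : ℝ) ^ θ ∨ A ∈ G) D
              (pf i)) →
            (2 : ℝ) ^ (((τ n).enc.length : ℝ) ^ ε) ≤ ∑ i, ((pf i).enc.length : ℝ) := by
  obtain ⟨θ', hθ'⟩ : ∃ θ' : ℝ, θ' = max θ 1 := ⟨_, rfl⟩
  have hθ1 : 1 ≤ θ' := by rw [hθ']; exact le_max_right _ _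
  have hθθ : θ ≤ θ' := by rw [hθ']; exact le_max_left _ _
  have hθ2 : θ' < 2 := by rw [hθ']; exact max_lt hθ (by norm_num)
  obtain ⟨k, ε0, hε0, d, C, τ, w, h1, h2, h3, h4, h5, h6⟩ := finalW2 θ' hθ2 D 3
  obtain ⟨ε, hε⟩ : ∃ ε : ℝ, ε = ε0 / 2 := ⟨_, rfl⟩
  have hεp : 0 < ε := by rw [hε]; linarith
  have hCC : ∀ n, bigAnd (d n) (C n) = bigAnd (d n) fun i => C n (i % 2 ^ d n) := fun n =>
    bigAnd_congr (d n) _ _ fun i hi => by rw [Nat.mod_eq_of_lt hi]
  refine ⟨k, ε, hεp, d, fun n i => C n (i % 2 ^ d n), τ, fun n => by rw [h1, hCC],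
    fun n i => h2 n _, h3, h4, fun Sch hfin htaut => ?_⟩
  -- the lengths of the schemes
  obtain ⟨ℓ, hℓ1, hℓ⟩ : ∃ ℓ, 1 ≤ ℓ ∧ ∀ ψ ∈ Sch, ψ.len ≤ ℓ := by
    obtain ⟨M, hM⟩ := (hfin.image Fm.len).bddAbove
    exact ⟨M + 1, by omega, fun ψ hψ => (hM ⟨ψ, hψ, rfl⟩).trans (by omega)⟩
  have hlim : Tendsto (fun n => ((τ n).enc.length : ℝ)) atTop atTop :=
    tendsto_natCast_atTop_atTop.comp h4
  have hlimε : Tendsto (fun n => ((τ n).enc.length : ℝ) ^ ε) atTop atTop :=
    (tendsto_rpow_atTop hεp).comp hlim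
  -- eventually `x ^ θ < 2 ^ (x ^ ε)`
  have hev : ∀ᶠ x : ℝ in atTop, x ^ θ < (2:ℝ) ^ (x ^ ε) := by
    have e1 : Tendsto (fun x : ℝ => x ^ ε) atTop atTop := tendsto_rpow_atTop hεp
    have e2 : ∀ᶠ z : ℝ in atTop, z ^ (θ / ε) < (2:ℝ) ^ z := by
      have e3 := (isLittleO_rpow_exp_pos_mul_atTop (θ / ε) (Real.log_pos one_lt_two)).bound
        (show (0:ℝ) < 1 / 2 by norm_num)
      filter_upwards [e3, eventually_gt_atTop 0] with z hz hz0
      rw [Real.norm_eq_abs, Real.norm_eq_abs, abs_of_nonneg (by positivity),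
        abs_of_nonneg (by positivity)] at hz
      have e4 : (2:ℝ) ^ z = Real.exp (Real.log 2 * z) := by
        rw [Real.rpow_def_of_pos (by norm_num)]
      rw [e4]
      have := Real.exp_pos (Real.log 2 * z)
      linarith
    filter_upwards [e1.eventually e2, eventually_gt_atTop 0] with x hx hx0
    rw [← Real.rpow_mul hx0.le, mul_div_cancel₀ _ hεp.ne'] at hx
    exact hx
  filter_upwards [h6, hlim.eventually hev, hlim.eventually (eventually_ge_atTop 9),
    hlimε.eventually (eventually_ge_atTop 4),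
    h5.eventually (eventually_ge_atTop (2 * 3 ^ ℓ + 2 * ℓ + 16))] with n h7 h8 h9 h10 h11
  intro L pf hpf hex
  obtain ⟨i0, hi0⟩ := hex
  obtain ⟨x, hx⟩ : ∃ x : ℝ, x = ((τ n).enc.length : ℝ) := ⟨_, rfl⟩
  rw [← hx] at h7 h8 h9 h10 ⊢
  have hx1 : 1 ≤ x := by linarith
  have hx0 : 0 < x := by linarith
  have hxe : x ^ ε0 = (x ^ ε) ^ 2 := by
    rw [← Real.rpow_natCast (x ^ ε) 2, ← Real.rpow_mul hx0.le, hε]
    congr 1
    push_cast
    ring
  have hxx : x ≤ x ^ θ' := by
    calc x = x ^ (1 : ℝ) := (Real.rpow_one x).symm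
      _ ≤ x ^ θ' := Real.rpow_le_rpow_of_exponent_le hx1 hθ1
  have hmain : ∀ G : Finset (Fm ℕ), (G.card : ℝ) ≤ x ^ ε →
      (∀ i, LDep (fun A => (A.enc.length : ℝ) ≤ x ^ θ ∨ A ∈ G) D (pf i)) →
      (2 : ℝ) ^ (x ^ ε) ≤ ∑ i, ((pf i).enc.length : ℝ) := by
    intro G hG hdep
    refine fixedX (d := d n) (D := D) (w := w n) (ℓ := ℓ) (C := C n) (B := x ^ θ')
      (e0 := x ^ ε0) h11 h10 hxe.ge ?_ ?_ (h9.trans hxx) hℓ1 ?_ Sch htaut hℓ pf hpf
      i0 (by rw [hi0, h1]) G hG fun i => ?_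
    · refine le_trans (Real.rpow_le_rpow_of_exponent_le hx1 ?_) h7.1
      rw [hε]; linarith
    · rw [← h1, ← hx]
      exact hxx
    · intro S hS hSl hSd
      exact h7.2 S hS hSl hSd
    · refine LDep_mono (fun A hA => ?_) (hdep i)
      rcases hA with hA | hA
      · exact Or.inl (hA.trans (Real.rpow_le_rpow_of_exponent_le hx1 hθθ))
      · exact Or.inr hA
  refine ⟨?_, hmain⟩
  by_contra hcon
  push Not at hcon
  have h12 : ∀ i, ((pf i).enc.length : ℝ) ≤ x ^ θ := fun i => by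
    refine le_trans ?_ hcon.le
    exact Finset.single_le_sum (f := fun i => ((pf i).enc.length : ℝ))
      (fun i _ => Nat.cast_nonneg _) (Finset.mem_univ i)
  have h13 := hmain ∅ (by simp only [Finset.card_empty, Nat.cast_zero]; linarith)
    fun i => LDep.base _ _ (Or.inl (h12 i))
  linarith

end Pool.Agent.H1.FX
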